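import Pool.Agent.Helper83.MobileTraps.Defs
import Pool.Agent.Helper83.MobileTraps.Z5
import Pool.Agent.Helper83.MobileTraps.Exist4

open MeasureTheory ProbabilityTheory Filter
open scoped ENNReal NNReal Topology
open Pool.Agent.Helper83.MobileTraps

/-- Disproof of quenched super-diffusivity among mobile traps, in every dimension `d ≥ 5`, for
all jump rates and all `ν, γ` with `ν γ² ≤ θ(d, κ, ρ)`: for almost every trap field the walk is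
not super-diffusive. -/
theorem Pool.Agent.Results.MP_26aa9e_pr.AlmostSurelyNotSuperDiffusive.result.{u, v} :
    ∀ (d : ℕ) (κ ρ : ℝ≥0), 5 ≤ d → 0 < κ → 0 < ρ →
    ∃ (θ : ℝ≥0) (M : ℝ), 0 < θ ∧ ∀ ν γ : ℝ≥0, ν * γ ^ 2 ≤ θ →
      (∃ (Ω Ω' : Type) (_ : MeasurableSpace Ω) (_ : MeasurableSpace Ω') (P : Measure Ω)
        (P' : Measure Ω') (N : (Fin d → ℤ) → Ω → ℕ)
        (Y : (Fin d → ℤ) → ℕ → ℝ≥0 → Ω → (Fin d → ℤ)) (X : ℝ≥0 → Ω' → (Fin d → ℤ)),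
        IsProbabilityMeasure P ∧ IsProbabilityMeasure P' ∧
        IsTrapSystem P d ρ ν N Y ∧ IsCTSRW P' d κ 0 X) ∧
      ∀ (Ω : Type u) (Ω' : Type v) [MeasurableSpace Ω] [MeasurableSpace Ω']
        (P : Measure Ω) (P' : Measure Ω') [IsProbabilityMeasure P] [IsProbabilityMeasure P']
        (N : (Fin d → ℤ) → Ω → ℕ) (Y : (Fin d → ℤ) → ℕ → ℝ≥0 → Ω → (Fin d → ℤ))
        (X : ℝ≥0 → Ω' → (Fin d → ℤ)),
        IsTrapSystem P d ρ ν N Y → IsCTSRW P' d κ 0 X →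
        (∀ᵐ ω ∂P, ∃ ε : ℝ≥0∞, 0 < ε ∧ ∀ t₀ : ℝ≥0, ∃ t ≥ t₀,
          ε ≤ quenched P' X γ (field N Y ω) t {x | len (x t) ≤ M * Real.sqrt t}) ∧
        ∀ᵐ ω ∂P, ¬ SuperDiffusive P' X γ (field N Y ω) := by
  intro d κ ρ hd hκ hρ
  obtain ⟨θ, M, hθ, h⟩ := ae_not_superdiffusive.{u, v} hd hκ hρ
  refine ⟨θ, M, hθ, fun ν γ hνγ => ⟨Exist.exists_realisation (by omega) κ ρ ν, ?_⟩⟩
  intro Ω Ω' _ _ P P' _ _ N Y X hS hX
  exact h Ω Ω' P P' ν γ N Y X hνγ hS hX
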